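import Mathlib
import Pool.Agent.H361R2.GBridge

/-! Exact patterns of primes in the orbits `2^i n + e`, `e = ±1`. -/

namespace Pool.Agent.H214R2.Orb

open Finset
open Pool.Agent.H361R2 (MTZ)

/-- `z` is a positive prime -/
def IP (z : ℤ) : Prop := ∃ p : ℕ, p.Prime ∧ z = p

theorem not_IP_of_dvd {z : ℤ} {q : ℕ} (hq : q.Prime) (h : (q : ℤ) ∣ z) (hz : (q : ℤ) < z) : ¬ IP z := by
  rintro ⟨p, hp, rfl⟩
  have h1 : q ∣ p := by exact_mod_cast h
  have h2 := (Nat.prime_dvd_prime_iff_eq hq hp).1 h1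
  subst h2
  exact lt_irrefl _ hz

/-- distinct primes beyond a bound, indexed by naturals -/
theorem exists_primes (L : ℕ) : ∃ q : ℕ → ℕ, Function.Injective q ∧ ∀ i, (q i).Prime ∧ L < q i := by
  have hinf : {p : ℕ | p.Prime ∧ L < p}.Infinite := by
    have h1 := Nat.infinite_setOfPred_prime
    have h2 : {p : ℕ | p.Prime ∧ L < p} = {p : ℕ | p.Prime} \ Set.Iic L := by
      ext p; simp [not_le]
    rw [h2]
    exact h1.sdiff (Set.finite_Iic L)
  exact ⟨fun i => (Set.Infinite.natEmbedding _ hinf i : ℕ),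
    fun i j hij => (Set.Infinite.natEmbedding _ hinf).injective (Subtype.ext hij),
    fun i => (Set.Infinite.natEmbedding _ hinf i).2⟩

theorem pow_ne_mod {q a i M : ℕ} (hq2 : 2 ^ (M + 1) < q) (ha : a ≤ M) (hi : i ≤ M)
    (hai : a ≠ i) : ¬ (q : ℤ) ∣ (2 : ℤ) ^ a - 2 ^ i := by
  intro h
  have h1 : ((2 : ℤ) ^ a - 2 ^ i) ≠ 0 := by
    intro h0
    have h2 : (2 : ℤ) ^ a = 2 ^ i := by linarith
    have h3 : (2 : ℕ) ^ a = 2 ^ i := by exact_mod_cast h2
    exact hai (Nat.pow_right_injective le_rfl h3)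
  have h2 := Int.natAbs_dvd_natAbs.2 h
  have h3 : ((2 : ℤ) ^ a - 2 ^ i).natAbs ≤ 2 ^ M := by
    have h4 : (2 : ℤ) ^ a ≤ 2 ^ M := pow_le_pow_right₀ (by norm_num) ha
    have h5 : (2 : ℤ) ^ i ≤ 2 ^ M := pow_le_pow_right₀ (by norm_num) hi
    have h6 : (0 : ℤ) < 2 ^ a := by positivity
    have h7 : (0 : ℤ) < 2 ^ i := by positivity
    zify
    rw [abs_le]
    constructor <;> linarith
  have h8 : ((2 : ℤ) ^ a - 2 ^ i).natAbs ≠ 0 := by simpa using h1
  have h9 := Nat.le_of_dvd (Nat.pos_of_ne_zero h8) h2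
  have h10 : 2 ^ M ≤ 2 ^ (M + 1) := Nat.pow_le_pow_right (by norm_num) (by omega)
  simp only [Int.natAbs_natCast] at h9
  omega

/-- exact pattern up to a given bound -/
theorem pattern_upto {m k : ℕ} (hk : MTZ m k) {e : ℤ} (he : IsUnit e) {A : Finset ℕ}
    (hA : A.card = k) (hA1 : ∀ a ∈ A, 1 ≤ a) (M : ℕ) (hM : ∀ a ∈ A, a ≤ M) :
    ∃ S ⊆ A, m ≤ S.card ∧
      {n : ℕ | Odd n ∧ 1 < n ∧ ∀ i ≤ M, (IP ((2 : ℤ) ^ i * n + e) ↔ i ∈ S)}.Infinite := by
  classical
  obtain ⟨q, hqinj, hq⟩ := exists_primes (2 ^ (M + 1))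
  set E : Finset ℕ := (range (M + 1)) \ A with hE
  have hq2 : ∀ i, 2 < q i := fun i => by
    have h1 : 2 ^ 1 ≤ 2 ^ (M + 1) := Nat.pow_le_pow_right (by norm_num) (by omega)
    have := (hq i).2
    omega
  -- inverse of `2^i` modulo `q i`
  have hinv : ∀ i, ∃ s : ℕ, (q i : ℤ) ∣ (2 : ℤ) ^ i * s + e := by
    intro i
    have hcop : IsCoprime ((2 : ℤ) ^ i) (q i : ℤ) := by
      have h1 : Nat.Coprime (2 ^ i) (q i) := by
        apply Nat.Coprime.pow_left
        exact (Nat.coprime_primes Nat.prime_two (hq i).1).2 (by have := hq2 i; omega)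
      have h2 := Nat.isCoprime_iff_coprime.2 h1
      simpa using h2
    obtain ⟨u, v, huv⟩ := hcop
    -- u 2^i + v q = 1
    refine ⟨((-e * u) % (q i : ℤ)).toNat, ?_⟩
    have hpos : (0 : ℤ) < q i := by exact_mod_cast (hq i).1.pos
    rw [Int.toNat_of_nonneg (Int.emod_nonneg _ hpos.ne')]
    have h3 : (2 : ℤ) ^ i * ((-e * u) % (q i : ℤ)) + e =
        (q i : ℤ) * (e * v - 2 ^ i * ((-e * u) / (q i : ℤ))) := by
      have h4 := Int.emod_add_mul_ediv (-e * u) (q i : ℤ)
      have h5 : (-e * u) % (q i : ℤ) = -e * u - (q i : ℤ) * ((-e * u) / (q i : ℤ)) := by linarith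
      rw [h5]
      have h6 : e = e * (u * 2 ^ i + v * (q i : ℤ)) := by rw [huv]; ring
      nth_rewrite 3 [h6]
      ring
    rw [h3]
    exact dvd_mul_right _ _
  choose s hs using hinv
  -- Chinese remainder
  set md : ℕ → ℕ := fun i => if i ∈ E then q i else 2 with hmd
  set T : Finset ℕ := insert (M + 1) E with hT
  have hM1 : M + 1 ∉ E := by
    rw [hE, mem_sdiff, mem_range]; omega
  have hmdE : ∀ i ∈ E, md i = q i := fun i hi => by simp [hmd, hi]
  have hmdM : md (M + 1) = 2 := by simp [hmd, hM1]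
  have hpair : Set.Pairwise (T : Set ℕ) (Function.onFun Nat.Coprime md) := by
    intro i hi j hj hij
    simp only [Function.onFun]
    have hi' : i = M + 1 ∨ i ∈ E := by simpa [hT] using hi
    have hj' : j = M + 1 ∨ j ∈ E := by simpa [hT] using hj
    rcases hi' with rfl | hi' <;> rcases hj' with rfl | hj'
    · exact absurd rfl hij
    · rw [hmdM, hmdE j hj']
      exact (Nat.coprime_primes Nat.prime_two (hq j).1).2 (by have := hq2 j; omega)
    · rw [hmdM, hmdE i hi']
      exact (Nat.coprime_primes (hq i).1 Nat.prime_two).2 (by have := hq2 i; omega)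
    · rw [hmdE i hi', hmdE j hj']
      exact (Nat.coprime_primes (hq i).1 (hq j).1).2 (fun h => hij (hqinj h))
  obtain ⟨r, hr⟩ := Nat.chineseRemainderOfFinset (fun i => if i ∈ E then s i else 1) md T
    (fun i hi => by
      rw [hmd]; dsimp only
      split_ifs
      · exact (hq i).1.ne_zero
      · norm_num) hpair
  have hrE : ∀ i ∈ E, (q i : ℤ) ∣ (2 : ℤ) ^ i * r + e := by
    intro i hi
    have h1 := hr i (by rw [hT]; exact mem_insert_of_mem hi)
    simp only [hi, if_true] at h1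
    rw [hmdE i hi] at h1
    have h2 : (q i : ℤ) ∣ (s i : ℤ) - r := (Int.modEq_iff_dvd).1 ((Int.natCast_modEq_iff).2 h1)
    have h3 : (2 : ℤ) ^ i * r + e = ((2 : ℤ) ^ i * s i + e) - 2 ^ i * ((s i : ℤ) - r) := by ring
    rw [h3]
    exact dvd_sub (hs i) (Dvd.dvd.mul_left h2 _)
  have hrodd : Odd r := by
    have h1 := hr (M + 1) (by rw [hT]; exact mem_insert_self _ _)
    simp only [hM1, if_false] at h1
    rw [hmdM] at h1
    rw [Nat.odd_iff]
    exact h1
  have hr1 : 1 ≤ r := hrodd.pos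
  set Q : ℕ := 2 * ∏ i ∈ E, q i with hQ
  have hQpos : 0 < Q := by
    rw [hQ]
    exact Nat.mul_pos (by norm_num) (prod_pos fun i _ => (hq i).1.pos)
  have hqQ : ∀ i ∈ E, 2 * q i ≤ Q := by
    intro i hi
    rw [hQ]
    have h1 : q i ∣ ∏ i ∈ E, q i := dvd_prod_of_mem _ hi
    have h2 := Nat.le_of_dvd (prod_pos fun i _ => (hq i).1.pos) h1
    omega
  have hqQd : ∀ i ∈ E, (q i : ℤ) ∣ Q := by
    intro i hi
    have h1 : q i ∣ Q := by rw [hQ]; exact Dvd.dvd.mul_left (dvd_prod_of_mem _ hi) _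
    exact_mod_cast h1
  have h2Q : (2 : ℤ) ∣ Q := ⟨((∏ i ∈ E, q i : ℕ) : ℤ), by rw [hQ]; push_cast; ring⟩
  -- the enumeration of `A`
  set φ := A.equivFinOfCardEq hA with hφ
  have heodd : Odd e := by
    rcases Int.isUnit_iff.1 he with h | h <;> rw [h] <;> decide
  obtain ⟨S, hSc, hSinf⟩ := hk (fun i => 2 ^ ((φ.symm i : ℕ)) * Q)
    (fun i => (2 : ℤ) ^ ((φ.symm i : ℕ)) * r + e)
    (fun i => Nat.mul_pos (by positivity) hQpos) (by
      intro i j hij
      simp only [Prod.mk.injEq] at hij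
      have h1 := Nat.eq_of_mul_eq_mul_right hQpos hij.1
      have h2 := Nat.pow_right_injective le_rfl h1
      exact φ.symm.injective (Subtype.ext h2)) (by
      intro p hp
      by_cases hpQ : p ∣ Q
      · refine ⟨0, fun i hi => ?_⟩
        simp only [mul_zero, zero_add] at hi
        have hpP : _root_.Prime p := hp.prime
        rw [hQ] at hpQ
        rcases hpP.dvd_or_dvd hpQ with h2 | h2
        · have hp2 : p = 2 := (Nat.prime_dvd_prime_iff_eq hp Nat.prime_two).1 h2
          subst hp2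
          have h3 : Even ((2 : ℤ) ^ ((φ.symm i : ℕ)) * r) := by
            have h4 : (1 : ℕ) ≤ (φ.symm i : ℕ) := hA1 _ (φ.symm i).2
            apply Even.mul_right
            exact (Int.even_pow).2 ⟨even_two, by omega⟩
          have h5 : Odd ((2 : ℤ) ^ ((φ.symm i : ℕ)) * r + e) := h3.add_odd heodd
          have h6 : Even ((2 : ℤ) ^ ((φ.symm i : ℕ)) * r + e) := (even_iff_two_dvd).2 (by exact_mod_cast hi)
          exact (Int.not_even_iff_odd.2 h5) h6
        · obtain ⟨j, hj, hpj⟩ := (hpP.dvd_finsetProd_iff _).1 h2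
          have hpj' : p = q j := (Nat.prime_dvd_prime_iff_eq hp (hq j).1).1 hpj
          subst hpj'
          have h3 := hrE j hj
          have h4 := dvd_sub hi h3
          have h5 : ((2 : ℤ) ^ ((φ.symm i : ℕ)) * r + e) - ((2 : ℤ) ^ j * r + e) =
              ((2 : ℤ) ^ ((φ.symm i : ℕ)) - 2 ^ j) * r := by ring
          rw [h5] at h4
          have hjE := mem_sdiff.1 (hE ▸ hj)
          have hjM : j ≤ M := by have := mem_range.1 hjE.1; omega
          have hne : (φ.symm i : ℕ) ≠ j := fun h => hjE.2 (h ▸ (φ.symm i).2)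
          rcases (Nat.prime_iff_prime_int.1 hp).dvd_or_dvd h4 with h6 | h6
          · exact pow_ne_mod (hq j).2 (hM _ (φ.symm i).2) hjM hne h6
          · have h7 : (q j : ℤ) ∣ e := (dvd_add_right (Dvd.dvd.mul_left h6 _)).1 h3
            exact (Nat.prime_iff_prime_int.1 hp).not_isUnit (isUnit_of_dvd_unit h7 he)
      · -- solve `Q x + r ≡ 0`
        have hcop : IsCoprime (Q : ℤ) (p : ℤ) :=
          (Nat.isCoprime_iff_coprime.2 ((Nat.Prime.coprime_iff_not_dvd hp).2 hpQ).symm)
        obtain ⟨u, v, huv⟩ := hcop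
        refine ⟨-r * u, fun i hi => ?_⟩
        have h1 : (((2 ^ ((φ.symm i : ℕ)) * Q : ℕ) : ℤ)) * (-r * u) + ((2 : ℤ) ^ ((φ.symm i : ℕ)) * r + e)
            = (p : ℤ) * (2 ^ ((φ.symm i : ℕ)) * r * v) + e := by
          have h2 : (Q : ℤ) * u = 1 - v * p := by linarith
          push_cast
          have h3 : (2 : ℤ) ^ ((φ.symm i : ℕ)) * (Q : ℤ) * (-r * u) =
            -(2 ^ ((φ.symm i : ℕ)) * r * ((Q : ℤ) * u)) := by ring
          rw [h3, h2]
          ring
        rw [h1] at hi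
        have h4 : (p : ℤ) ∣ e := (dvd_add_right (dvd_mul_right _ _)).1 hi
        exact (Nat.prime_iff_prime_int.1 hp).not_isUnit (isUnit_of_dvd_unit h4 he))
  have hφinj : Function.Injective (fun i => (φ.symm i : ℕ)) :=
    fun i j hij => φ.symm.injective (Subtype.ext hij)
  refine ⟨S.image (fun i => (φ.symm i : ℕ)), ?_, ?_, ?_⟩
  · intro a ha
    rw [mem_image] at ha
    obtain ⟨i, _, rfl⟩ := ha
    exact (φ.symm i).2
  · rw [card_image_of_injective _ hφinj]; exact hSc
  · have hinf2 : ({n : ℕ | ∀ i, (∃ p : ℕ, p.Prime ∧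
        (((2 ^ ((φ.symm i : ℕ)) * Q : ℕ) : ℤ) * n + ((2 : ℤ) ^ ((φ.symm i : ℕ)) * r + e) : ℤ) = p) ↔ i ∈ S}
        \ {0}).Infinite := hSinf.sdiff (Set.finite_singleton 0)
    have hinj : Set.InjOn (fun x : ℕ => Q * x + r) ({n : ℕ | ∀ i, (∃ p : ℕ, p.Prime ∧
        (((2 ^ ((φ.symm i : ℕ)) * Q : ℕ) : ℤ) * n + ((2 : ℤ) ^ ((φ.symm i : ℕ)) * r + e) : ℤ) = p) ↔ i ∈ S}
        \ {0}) := by
      intro x _ y _ hxy
      simp only [add_left_inj] at hxy
      exact Nat.eq_of_mul_eq_mul_left hQpos hxy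
    refine (hinf2.image hinj).mono ?_
    rintro n ⟨x, ⟨hx, hx0⟩, rfl⟩
    have hx1 : 1 ≤ x := Nat.one_le_iff_ne_zero.2 (by simpa using hx0)
    have hQx : Q ≤ Q * x := Nat.le_mul_of_pos_right _ hx1
    simp only [Set.mem_ofPred_eq] at hx ⊢
    refine ⟨?_, ?_, ?_⟩
    · have : Even (Q * x) := Even.mul_right (by rw [hQ]; exact even_two_mul _) _
      exact this.add_odd hrodd
    · omega
    · intro i hi
      by_cases hiA : i ∈ A
      · have h1 := hx (φ ⟨i, hiA⟩)
        simp only [Equiv.symm_apply_apply] at h1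
        have h2 : (((2 ^ i * Q : ℕ) : ℤ) * x + ((2 : ℤ) ^ i * r + e)) =
            (2 : ℤ) ^ i * ((Q * x + r : ℕ) : ℤ) + e := by push_cast; ring
        rw [h2] at h1
        unfold IP
        rw [h1, mem_image]
        constructor
        · intro h; exact ⟨_, h, by simp⟩
        · rintro ⟨j, hj, hj2⟩
          have h3 : φ.symm j = ⟨i, hiA⟩ := Subtype.ext hj2
          rw [← h3]; simpa using hj
      · have hiE : i ∈ E := by rw [hE, mem_sdiff, mem_range]; exact ⟨by omega, hiA⟩
        constructor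
        · intro h
          exfalso
          refine not_IP_of_dvd (hq i).1 ?_ ?_ h
          · have h1 : (2 : ℤ) ^ i * ((Q * x + r : ℕ) : ℤ) + e =
              (Q : ℤ) * (2 ^ i * x) + (2 ^ i * r + e) := by push_cast; ring
            rw [h1]
            exact dvd_add (Dvd.dvd.mul_right (hqQd i hiE) _) (hrE i hiE)
          · have h1 : (1 : ℤ) ≤ 2 ^ i := one_le_pow₀ (by norm_num)
            have h2 : (2 * q i : ℤ) ≤ ((Q * x + r : ℕ) : ℤ) := by
              have := hqQ i hiE
              exact_mod_cast (by omega : 2 * q i ≤ Q * x + r)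
            have h3 : (-1 : ℤ) ≤ e := by rcases Int.isUnit_iff.1 he with h | h <;> omega
            have h4 : (2 : ℤ) < q i := by exact_mod_cast hq2 i
            have h5 : ((Q * x + r : ℕ) : ℤ) ≤ 2 ^ i * ((Q * x + r : ℕ) : ℤ) :=
              le_mul_of_one_le_left (by positivity) h1
            linarith
        · intro h
          rw [mem_image] at h
          obtain ⟨j, _, hj⟩ := h
          exact absurd (hj ▸ (φ.symm j).2) hiA

/-- for every bound the prime exponents of infinitely many odd `n` are exactly `S` -/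
def Exact (e : ℤ) (S : Finset ℕ) : Prop :=
  ∀ M : ℕ, {n : ℕ | Odd n ∧ 1 < n ∧ ∀ i ≤ M, (IP ((2 : ℤ) ^ i * n + e) ↔ i ∈ S)}.Infinite

theorem pattern {m k : ℕ} (hk : MTZ m k) {e : ℤ} (he : IsUnit e) {A : Finset ℕ}
    (hA : A.card = k) (hA1 : ∀ a ∈ A, 1 ≤ a) : ∃ S ⊆ A, m ≤ S.card ∧ Exact e S := by
  classical
  by_contra hcon
  push Not at hcon
  have h1 : ∀ S : Finset ℕ, ∃ M : ℕ, S ⊆ A → m ≤ S.card →
      ¬ {n : ℕ | Odd n ∧ 1 < n ∧ ∀ i ≤ M, (IP ((2 : ℤ) ^ i * n + e) ↔ i ∈ S)}.Infinite := by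
    intro S
    by_cases h : S ⊆ A ∧ m ≤ S.card
    · have h2 := hcon S h.1 h.2
      unfold Exact at h2
      rw [not_forall] at h2
      obtain ⟨M, hM⟩ := h2
      exact ⟨M, fun _ _ => hM⟩
    · exact ⟨0, fun h3 h4 => absurd ⟨h3, h4⟩ h⟩
  choose f hf using h1
  obtain ⟨S, hSA, hSc, hS⟩ := pattern_upto hk he hA hA1 (A.powerset.sup f + A.sup id)
    (fun a ha => by
      have := le_sup (f := id) ha
      simp only [id] at this
      omega)
  refine hf S hSA hSc (hS.mono ?_)
  rintro n ⟨h2, h3, h4⟩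
  refine ⟨h2, h3, fun i hi => h4 i ?_⟩
  have := le_sup (f := f) (mem_powerset.2 hSA)
  omega

/-- the exact pattern `T` occurs in the orbits of infinitely many primes, for every bound -/
def GoodT (e : ℤ) (T : Finset ℕ) : Prop :=
  ∀ M : ℕ, {p : ℕ | p.Prime ∧ ∀ i ≤ M, (IP ((2 : ℤ) ^ i * (p - e) + e) ↔ i ∈ T)}.Infinite

theorem exists_cut (S : Finset ℕ) {m : ℕ} (hm : 1 ≤ m) (hS : m ≤ S.card) :
    ∃ t ∈ S, (S.filter (fun s => t ≤ s)).card = m := by
  classical
  have hlast : (S.filter (fun s => S.sup id + 1 ≤ s)).card < m := by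
    rw [filter_eq_empty_iff.2]
    · rw [card_empty]; omega
    · intro s hs h
      have := le_sup (f := id) hs
      simp only [id] at this
      omega
  have hex : ∃ t : ℕ, (S.filter (fun s => t + 1 ≤ s)).card < m := ⟨_, hlast⟩
  set t := Nat.find hex with ht
  have h1 : (S.filter (fun s => t + 1 ≤ s)).card < m := Nat.find_spec hex
  have h2 : m ≤ (S.filter (fun s => t ≤ s)).card := by
    rcases Nat.eq_zero_or_pos t with h0 | h0
    · rw [h0]; simpa using hS
    · obtain ⟨u, hu⟩ : ∃ u, t = u + 1 := ⟨t - 1, by omega⟩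
      have := Nat.find_min hex (m := u) (by omega)
      rw [hu]
      omega
  have h3 : S.filter (fun s => t ≤ s) ⊆ insert t (S.filter (fun s => t + 1 ≤ s)) := by
    intro s hs
    rw [mem_filter] at hs
    rw [mem_insert, mem_filter]
    by_cases h : s = t
    · exact Or.inl h
    · exact Or.inr ⟨hs.1, by omega⟩
  have h4 : (S.filter (fun s => t ≤ s)).card ≤ (S.filter (fun s => t + 1 ≤ s)).card + 1 :=
    (card_le_card h3).trans (card_insert_le _ _)
  refine ⟨t, ?_, by omega⟩
  by_contra hts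
  have h5 : S.filter (fun s => t ≤ s) ⊆ S.filter (fun s => t + 1 ≤ s) := by
    intro s hs
    rw [mem_filter] at hs ⊢
    refine ⟨hs.1, ?_⟩
    have : s ≠ t := fun h => hts (h ▸ hs.1)
    omega
  have := card_le_card h5
  omega

theorem shift {e : ℤ} (he : IsUnit e) {S : Finset ℕ} (hS : Exact e S) {m : ℕ} (hm : 1 ≤ m)
    (hSc : m ≤ S.card) : ∃ t ∈ S, ∃ T : Finset ℕ, 0 ∈ T ∧ T.card = m ∧ GoodT e T ∧
      T.image (fun i => i + t) ⊆ S := by
  classical
  obtain ⟨t, ht, htc⟩ := exists_cut S hm hSc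
  have himg : ∀ i, i ∈ (S.filter (fun s => t ≤ s)).image (fun s => s - t) ↔ i + t ∈ S := by
    intro i
    rw [mem_image]
    constructor
    · rintro ⟨s, hs, rfl⟩
      rw [mem_filter] at hs
      rw [Nat.sub_add_cancel hs.2]; exact hs.1
    · intro h
      exact ⟨i + t, mem_filter.2 ⟨h, by omega⟩, by omega⟩
  refine ⟨t, ht, (S.filter (fun s => t ≤ s)).image (fun s => s - t), ?_, ?_, ?_, ?_⟩
  · rw [himg]; simpa using ht
  · rw [card_image_of_injOn, htc]
    intro a ha b hb hab
    simp only [coe_filter, Set.mem_ofPred_eq] at ha hb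
    simp only at hab
    omega
  · intro M
    have h1 := hS (M + t)
    have hpos : ∀ n : ℕ, 1 < n → (1 : ℤ) ≤ 2 ^ t * n + e := by
      intro n hn
      have h2 : (1 : ℤ) ≤ 2 ^ t := one_le_pow₀ (by norm_num)
      have h3 : (n : ℤ) ≤ 2 ^ t * n := le_mul_of_one_le_left (by positivity) h2
      have h4 : (2 : ℤ) ≤ n := by exact_mod_cast hn
      have h5 : (-1 : ℤ) ≤ e := by rcases Int.isUnit_iff.1 he with h | h <;> omega
      omega
    have hinj : Set.InjOn (fun n : ℕ => ((2 : ℤ) ^ t * n + e).toNat)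
        {n : ℕ | Odd n ∧ 1 < n ∧ ∀ i ≤ M + t, (IP ((2 : ℤ) ^ i * n + e) ↔ i ∈ S)} := by
      intro a ha b hb hab
      simp only at hab
      have h2 := hpos a ha.2.1
      have h3 := hpos b hb.2.1
      have h4 : (2 : ℤ) ^ t * a + e = 2 ^ t * b + e := by omega
      have h5 : (2 : ℤ) ^ t * a = 2 ^ t * b := by linarith
      have h6 : (a : ℤ) = b := mul_left_cancel₀ (by positivity) h5
      exact_mod_cast h6
    refine (h1.image hinj).mono ?_
    rintro p ⟨n, ⟨_, hn1, hn2⟩, rfl⟩
    have h2 := hpos n hn1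
    have hcast : ((((2 : ℤ) ^ t * n + e).toNat : ℕ) : ℤ) = 2 ^ t * n + e :=
      Int.toNat_of_nonneg (by omega)
    simp only [Set.mem_ofPred_eq]
    constructor
    · obtain ⟨p, hp, hpe⟩ := (hn2 t (by omega)).2 ht
      rw [hpe]; simpa using hp
    · intro i hi
      rw [hcast, himg, ← hn2 (i + t) (by omega)]
      have h3 : (2 : ℤ) ^ i * (2 ^ t * n + e - e) + e = 2 ^ (i + t) * n + e := by
        rw [pow_add]; ring
      rw [h3]
  · intro s hs
    rw [mem_image] at hs
    obtain ⟨i, hi, rfl⟩ := hs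
    exact (himg i).1 hi

open Classical in
/-- the good patterns inside `{0, ..., N - 1}` -/
noncomputable def goodSets (e : ℤ) (m N : ℕ) : Finset (Finset ℕ) :=
  (range N).powerset.filter (fun T => 0 ∈ T ∧ T.card = m ∧ GoodT e T)

theorem card_supersets (T' : Finset ℕ) (N K m : ℕ) (hT : T'.card = m) :
    ((powersetCard K (range N)).filter (fun A => T' ⊆ A)).card ≤ N.choose (K - m) := by
  classical
  have h1 : ((powersetCard K (range N)).filter (fun A => T' ⊆ A)).card ≤
      (powersetCard (K - m) (range N)).card := by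
    apply card_le_card_of_injOn (fun A => A \ T')
    · intro A hA
      simp only [coe_filter, Set.mem_ofPred_eq, mem_powersetCard] at hA
      simp only [mem_coe, mem_powersetCard]
      refine ⟨sdiff_subset.trans hA.1.1, ?_⟩
      rw [card_sdiff_of_subset hA.2, hA.1.2, hT]
    · intro A hA B hB hAB
      simp only [coe_filter, Set.mem_ofPred_eq] at hA hB
      simp only at hAB
      rw [← sdiff_union_of_subset hA.2, hAB, sdiff_union_of_subset hB.2]
  rwa [card_powersetCard, card_range] at h1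

theorem counting {m k : ℕ} (hk : MTZ m k) {e : ℤ} (he : IsUnit e) (hm : 1 ≤ m) (N : ℕ) :
    N.choose k ≤ (N * N.choose (k - m)) * (goodSets e m N).card := by
  classical
  have key : ∀ A ∈ powersetCard k (range N), ∃ T ∈ goodSets e m N, ∃ t < N,
      T.image (fun i => i + t) ⊆ A := by
    intro A hA
    rw [mem_powersetCard] at hA
    have hinj : Function.Injective (fun a : ℕ => a + 1) := fun a b h => by simpa using h
    obtain ⟨S, hSA, hSc, hS⟩ := pattern hk he (A := A.image (fun a => a + 1))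
      (by rw [card_image_of_injective _ hinj, hA.2]) (by
        intro a ha
        rw [mem_image] at ha
        obtain ⟨b, _, rfl⟩ := ha
        omega)
    obtain ⟨t, ht, T, hT0, hTc, hTg, hTS⟩ := shift he hS hm hSc
    have ht' := hSA ht
    rw [mem_image] at ht'
    obtain ⟨u, hu, hut⟩ := ht'
    have hsub : T.image (fun i => i + u) ⊆ A := by
      intro x hx
      rw [mem_image] at hx
      obtain ⟨i, hi, rfl⟩ := hx
      have h1 := hSA (hTS (mem_image_of_mem _ hi))
      rw [mem_image] at h1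
      obtain ⟨b, hb, hbe⟩ := h1
      have : i + u = b := by omega
      rw [this]; exact hb
    refine ⟨T, ?_, u, mem_range.1 (hA.1 hu), hsub⟩
    rw [goodSets, mem_filter, mem_powerset]
    refine ⟨?_, hT0, hTc, hTg⟩
    intro i hi
    have h1 := mem_range.1 (hA.1 (hsub (mem_image_of_mem _ hi)))
    rw [mem_range]; omega
  choose! F hF t ht hsub using key
  have h1 : (powersetCard k (range N)).card ≤
      (N * N.choose (k - m)) * ((powersetCard k (range N)).image F).card := by
    apply card_le_mul_card_image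
    intro T hT
    rw [mem_image] at hT
    obtain ⟨A0, hA0, hA0T⟩ := hT
    have hTg := hF A0 hA0
    rw [hA0T, goodSets, mem_filter] at hTg
    have h2 : ((powersetCard k (range N)).filter (fun A => F A = T)) ⊆
        (range N).biUnion (fun s => (powersetCard k (range N)).filter
          (fun A => T.image (fun i => i + s) ⊆ A)) := by
      intro A hA
      rw [mem_filter] at hA
      rw [mem_biUnion]
      refine ⟨t A, mem_range.2 (ht A hA.1), mem_filter.2 ⟨hA.1, ?_⟩⟩
      have := hsub A hA.1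
      rwa [hA.2] at this
    refine (card_le_card h2).trans ((card_biUnion_le).trans ?_)
    calc ∑ s ∈ range N, ((powersetCard k (range N)).filter
          (fun A => T.image (fun i => i + s) ⊆ A)).card
        ≤ ∑ _s ∈ range N, N.choose (k - m) := by
          apply sum_le_sum
          intro s _
          apply card_supersets
          rw [card_image_of_injective _ (fun a b h => by simpa using h)]
          exact hTg.2.2.1
      _ = N * N.choose (k - m) := by rw [sum_const, card_range, smul_eq_mul]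
  rw [card_powersetCard, card_range] at h1
  refine h1.trans (Nat.mul_le_mul_left _ (card_le_card ?_))
  intro T hT
  rw [mem_image] at hT
  obtain ⟨A0, hA0, rfl⟩ := hT
  exact hF A0 hA0

theorem proportion {m k : ℕ} (hk : MTZ m k) (hmk : m ≤ k) {e : ℤ} (he : IsUnit e) (hm : 1 ≤ m) :
    ∃ c : ℝ, 0 < c ∧ ∃ N₀ : ℕ, ∀ N : ℕ, N₀ ≤ N →
      c * (N : ℝ) ^ (m - 1) ≤ ((goodSets e m N).card : ℝ) := by
  refine ⟨1 / (2 ^ k * k.factorial), by positivity, 2 * k + 1, fun N hN => ?_⟩
  have h1 := counting hk he hm N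
  have hNpos : (0 : ℝ) < N := by exact_mod_cast (by omega : 0 < N)
  have h2 : ((N + 1 - k : ℕ) : ℝ) ^ k ≤ k.factorial * N.choose k := by
    have := Nat.pow_sub_le_descFactorial N k
    rw [Nat.descFactorial_eq_factorial_mul_choose] at this
    exact_mod_cast this
  have h3 : ((N : ℝ) / 2) ^ k ≤ k.factorial * N.choose k := by
    refine le_trans ?_ h2
    apply pow_le_pow_left₀ (by positivity)
    rw [div_le_iff₀ (by norm_num)]
    have : N ≤ (N + 1 - k) * 2 := by omega
    exact_mod_cast this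
  have h4 : (N.choose (k - m) : ℝ) ≤ (N : ℝ) ^ (k - m) := by
    exact_mod_cast Nat.choose_le_pow N (k - m)
  have h5 : (N.choose k : ℝ) ≤ (N * N.choose (k - m)) * (goodSets e m N).card := by
    exact_mod_cast h1
  have h6 : (N.choose k : ℝ) ≤ (N * (N : ℝ) ^ (k - m)) * (goodSets e m N).card := by
    refine h5.trans ?_
    gcongr
  have h7 : ((N : ℝ) / 2) ^ k ≤ k.factorial * ((N * (N : ℝ) ^ (k - m)) * (goodSets e m N).card) :=
    h3.trans (by gcongr)
  have h8 : (N : ℝ) ^ k = (N : ℝ) ^ (m - 1) * (N * (N : ℝ) ^ (k - m)) := by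
    rw [← pow_succ', ← pow_add]
    congr 1
    omega
  have h9 : (0 : ℝ) < N * (N : ℝ) ^ (k - m) := by positivity
  rw [div_pow, h8] at h7
  rw [div_mul_eq_mul_div, one_mul, div_le_iff₀ (by positivity)]
  have h10 : (N : ℝ) ^ (m - 1) * (N * (N : ℝ) ^ (k - m)) ≤
      ((goodSets e m N).card * (2 ^ k * k.factorial)) * (N * (N : ℝ) ^ (k - m)) := by
    rw [div_le_iff₀ (by positivity)] at h7
    calc _ ≤ _ := h7
      _ = _ := by ring
  exact le_of_mul_le_mul_right h10 h9

/-- from two primes among `k` forms to the exact set of prime forms -/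
theorem mtz_two {k : ℕ} (hk : Pool.Agent.H361R2.MaynardTao k) : MTZ 2 k := by
  classical
  intro A B hA hinj hadm
  obtain ⟨i, j, hij, hinf⟩ := hk A B hA hinj hadm
  by_contra hcon
  push Not at hcon
  have hfin : ∀ S : Finset (Fin k), 2 ≤ S.card →
      {n : ℕ | ∀ i, (∃ p : ℕ, p.Prime ∧ (A i * n + B i : ℤ) = p) ↔ i ∈ S}.Finite := by
    intro S hS
    exact hcon S hS
  have hU : (⋃ S ∈ (univ : Finset (Finset (Fin k))).filter (fun S => 2 ≤ S.card),
      {n : ℕ | ∀ i, (∃ p : ℕ, p.Prime ∧ (A i * n + B i : ℤ) = p) ↔ i ∈ S}).Finite := by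
    apply Set.Finite.biUnion (finite_toSet _)
    intro S hS
    exact hfin S (mem_filter.1 (mem_coe.1 hS)).2
  refine hinf (hU.subset ?_)
  rintro n ⟨hi, hj⟩
  set S : Finset (Fin k) := univ.filter (fun i => ∃ p : ℕ, p.Prime ∧ (A i * n + B i : ℤ) = p)
    with hS
  rw [Set.mem_iUnion₂]
  refine ⟨S, ?_, ?_⟩
  · rw [mem_filter]
    refine ⟨mem_univ _, ?_⟩
    have h1 : ({i, j} : Finset (Fin k)) ⊆ S := by
      intro x hx
      rw [mem_insert, mem_singleton] at hx
      rw [hS, mem_filter]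
      rcases hx with rfl | rfl
      · exact ⟨mem_univ _, hi⟩
      · exact ⟨mem_univ _, hj⟩
    have h2 := card_le_card h1
    rw [card_pair hij] at h2
    exact h2
  · intro x
    rw [hS, mem_filter]
    simp

end Pool.Agent.H214R2.Orb
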