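import Mathlib
import Pool.Agent.H214R2.Orb
import Pool.Agent.Helper850.RC.P_ramseyP

/-! Simultaneous patterns for two kinds of orbits (Ramsey). -/

namespace Pool.Agent.H214R2.Orb

open Finset
open Pool.Agent.H361R2 (MTZ)

/-- every `k`-element set contains a translate of an `m`-element set `T ∋ 0` with `G T` -/
def Hits (m k : ℕ) (G : Finset ℕ → Prop) : Prop :=
  ∀ A : Finset ℕ, A.card = k → ∃ T : Finset ℕ, 0 ∈ T ∧ T.card = m ∧ G T ∧
    ∃ t, T.image (fun i => i + t) ⊆ A

theorem hits_of_mtz {m k : ℕ} (hk : MTZ m k) {e : ℤ} (he : IsUnit e) (hm : 1 ≤ m) :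
    Hits m k (GoodT e) := by
  classical
  intro A hA
  have hinj : Function.Injective (fun a : ℕ => a + 1) := fun a b h => by simpa using h
  obtain ⟨S, hSA, hSc, hS⟩ := pattern hk he (A := A.image (fun a => a + 1))
    (by rw [card_image_of_injective _ hinj, hA]) (by
      intro a ha
      rw [mem_image] at ha
      obtain ⟨b, _, rfl⟩ := ha
      omega)
  obtain ⟨t, ht, T, hT0, hTc, hTg, hTS⟩ := shift he hS hm hSc
  have ht' := hSA ht
  rw [mem_image] at ht'
  obtain ⟨u, hu, hut⟩ := ht'
  refine ⟨T, hT0, hTc, hTg, u, ?_⟩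
  intro x hx
  rw [mem_image] at hx
  obtain ⟨i, hi, rfl⟩ := hx
  have h1 := hSA (hTS (mem_image_of_mem _ hi))
  rw [mem_image] at h1
  obtain ⟨b, hb, hbe⟩ := h1
  have : i + u = b := by omega
  rw [this]; exact hb

theorem hits_and {m k₁ k₂ : ℕ} {G₁ G₂ : Finset ℕ → Prop} (hm : 1 ≤ m) (h1 : Hits m k₁ G₁)
    (h2 : Hits m k₂ G₂) : ∃ k, m ≤ k ∧ Hits m k (fun T => G₁ T ∧ G₂ T) := by
  classical
  obtain ⟨C, hC⟩ := RC.ramseyP m
  obtain ⟨a, ha⟩ := hC Bool
  set n := k₁ + k₂ + m with hn
  refine ⟨max m (RC.tow C (a * (n + 1))), le_max_left _ _, fun A hA => ?_⟩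
  set z : Fin m := ⟨0, hm⟩ with hz
  set P : Bool → (Fin m → ℕ) → Prop := fun j x =>
    if j then G₁ (univ.image (fun l => x l - x z)) else G₂ (univ.image (fun l => x l - x z))
    with hP
  obtain ⟨B, hBA, hBc, hB⟩ := ha n A (by rw [hA]; exact le_max_right _ _) P
  have key : ∀ T : Finset ℕ, 0 ∈ T → T.card = m → ∀ t, T.image (fun i => i + t) ⊆ B →
      ∃ x : Fin m → ℕ, StrictMono x ∧ (∀ l, x l ∈ B) ∧ univ.image (fun l => x l - x z) = T := by
    intro T hT0 hTc t hTB
    set U := T.image (fun i => i + t) with hU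
    have hUc : U.card = m := by
      rw [hU, card_image_of_injective _ (fun a b h => by simpa using h), hTc]
    set x : Fin m → ℕ := fun l => U.orderEmbOfFin hUc l with hx
    have hxmono : StrictMono x := (U.orderEmbOfFin hUc).strictMono
    have hxU : ∀ l, x l ∈ U := fun l => U.orderEmbOfFin_mem hUc l
    have hximg : univ.image x = U := by
      apply eq_of_subset_of_card_le
      · intro y hy
        rw [mem_image] at hy
        obtain ⟨l, _, rfl⟩ := hy
        exact hxU l
      · rw [card_image_of_injective _ hxmono.injective, hUc, card_univ, Fintype.card_fin]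
    have hxz : x z = t := by
      have h3 : t ∈ U := by rw [hU, mem_image]; exact ⟨0, hT0, by omega⟩
      rw [← hximg, mem_image] at h3
      obtain ⟨l, _, hl⟩ := h3
      have h4 : x z ≤ x l := hxmono.monotone (by rw [hz]; exact Fin.mk_le_of_le_val (Nat.zero_le _))
      have h5 := hxU z
      rw [hU, mem_image] at h5
      obtain ⟨i, _, hi⟩ := h5
      omega
    refine ⟨x, hxmono, fun l => hTB (hxU l), ?_⟩
    rw [hxz]
    have h6 : univ.image (fun l => x l - t) = (univ.image x).image (fun y => y - t) := by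
      rw [image_image]; rfl
    rw [h6, hximg, hU, image_image]
    have h7 : ((fun y => y - t) ∘ fun i => i + t) = id := by
      funext i; simp
    rw [h7, image_id]
  -- the two alternatives
  have hall1 : ∀ x : Fin m → ℕ, StrictMono x → (∀ l, x l ∈ B) → P true x := by
    rcases hB true with h | h
    · exact h
    · exfalso
      obtain ⟨B1, hB1, hB1c⟩ := exists_subset_card_eq (s := B) (n := k₁) (by omega)
      obtain ⟨T, hT0, hTc, hTg, t, hTt⟩ := h1 B1 hB1c
      obtain ⟨x, hx1, hx2, hx3⟩ := key T hT0 hTc t (hTt.trans hB1)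
      apply h x hx1 hx2
      rw [hP]
      simp only [if_true]
      rw [hx3]; exact hTg
  have hall2 : ∀ x : Fin m → ℕ, StrictMono x → (∀ l, x l ∈ B) → P false x := by
    rcases hB false with h | h
    · exact h
    · exfalso
      obtain ⟨B1, hB1, hB1c⟩ := exists_subset_card_eq (s := B) (n := k₂) (by omega)
      obtain ⟨T, hT0, hTc, hTg, t, hTt⟩ := h2 B1 hB1c
      obtain ⟨x, hx1, hx2, hx3⟩ := key T hT0 hTc t (hTt.trans hB1)
      apply h x hx1 hx2
      rw [hP]
      simp only [Bool.false_eq_true, if_false]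
      rw [hx3]; exact hTg
  obtain ⟨U, hUB, hUc⟩ := exists_subset_card_eq (s := B) (n := m) (by omega)
  set x : Fin m → ℕ := fun l => U.orderEmbOfFin hUc l with hx
  have hxmono : StrictMono x := (U.orderEmbOfFin hUc).strictMono
  have hxU : ∀ l, x l ∈ U := fun l => U.orderEmbOfFin_mem hUc l
  have hz0 : ∀ l, x z ≤ x l := fun l =>
    hxmono.monotone (by rw [hz]; exact Fin.mk_le_of_le_val (Nat.zero_le _))
  refine ⟨univ.image (fun l => x l - x z), ?_, ?_, ⟨?_, ?_⟩, x z, ?_⟩
  · rw [mem_image]; exact ⟨z, mem_univ _, by omega⟩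
  · rw [card_image_of_injective, card_univ, Fintype.card_fin]
    intro a b hab
    simp only at hab
    have := hz0 a
    have := hz0 b
    exact hxmono.injective (by omega)
  · have := hall1 x hxmono (fun l => hUB (hxU l))
    rw [hP] at this
    simpa only [if_true] using this
  · have := hall2 x hxmono (fun l => hUB (hxU l))
    rw [hP] at this
    simpa only [Bool.false_eq_true, if_false] using this
  · intro y hy
    rw [image_image, mem_image] at hy
    obtain ⟨l, _, rfl⟩ := hy
    simp only [Function.comp]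
    have h3 := hz0 l
    rw [Nat.sub_add_cancel h3]
    exact hBA (hUB (hxU l))

open Classical in
/-- the `m`-element sets `T ∋ 0` in `{0, ..., N - 1}` with `G T` -/
noncomputable def gSets (G : Finset ℕ → Prop) (m N : ℕ) : Finset (Finset ℕ) :=
  (range N).powerset.filter (fun T => 0 ∈ T ∧ T.card = m ∧ G T)

theorem counting_gen {m k : ℕ} {G : Finset ℕ → Prop} (hk : Hits m k G) (N : ℕ) :
    N.choose k ≤ (N * N.choose (k - m)) * (gSets G m N).card := by
  classical
  have key : ∀ A ∈ powersetCard k (range N), ∃ T ∈ gSets G m N, ∃ t < N,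
      T.image (fun i => i + t) ⊆ A := by
    intro A hA
    rw [mem_powersetCard] at hA
    obtain ⟨T, hT0, hTc, hTg, t, hTt⟩ := hk A hA.2
    have ht : t < N := by
      have := mem_range.1 (hA.1 (hTt (mem_image_of_mem _ hT0)))
      omega
    refine ⟨T, ?_, t, ht, hTt⟩
    rw [gSets, mem_filter, mem_powerset]
    refine ⟨?_, hT0, hTc, hTg⟩
    intro i hi
    have h1 := mem_range.1 (hA.1 (hTt (mem_image_of_mem _ hi)))
    rw [mem_range]; omega
  choose! F hF t ht hsub using key
  have h1 : (powersetCard k (range N)).card ≤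
      (N * N.choose (k - m)) * ((powersetCard k (range N)).image F).card := by
    apply card_le_mul_card_image
    intro T hT
    rw [mem_image] at hT
    obtain ⟨A0, hA0, hA0T⟩ := hT
    have hTg := hF A0 hA0
    rw [hA0T, gSets, mem_filter] at hTg
    have h2 : ((powersetCard k (range N)).filter (fun A => F A = T)) ⊆
        (range N).biUnion (fun s => (powersetCard k (range N)).filter
          (fun A => T.image (fun i => i + s) ⊆ A)) := by
      intro A hA
      rw [mem_filter] at hA
      rw [mem_biUnion]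
      refine ⟨t A, mem_range.2 (ht A hA.1), mem_filter.2 ⟨hA.1, ?_⟩⟩
      have := hsub A hA.1
      rwa [hA.2] at this
    refine (card_le_card h2).trans ((card_biUnion_le).trans ?_)
    calc ∑ s ∈ range N, ((powersetCard k (range N)).filter
          (fun A => T.image (fun i => i + s) ⊆ A)).card
        ≤ ∑ _s ∈ range N, N.choose (k - m) := by
          apply sum_le_sum
          intro s _
          apply card_supersets
          rw [card_image_of_injective _ (fun a b h => by simpa using h)]
          exact hTg.2.2.1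
      _ = N * N.choose (k - m) := by rw [sum_const, card_range, smul_eq_mul]
  rw [card_powersetCard, card_range] at h1
  refine h1.trans (Nat.mul_le_mul_left _ (card_le_card ?_))
  intro T hT
  rw [mem_image] at hT
  obtain ⟨A0, hA0, rfl⟩ := hT
  exact hF A0 hA0

theorem proportion_gen {m k : ℕ} {G : Finset ℕ → Prop} (hk : Hits m k G) (hmk : m ≤ k)
    (hm : 1 ≤ m) :
    ∃ c : ℝ, 0 < c ∧ ∃ N₀ : ℕ, ∀ N : ℕ, N₀ ≤ N →
      c * (N : ℝ) ^ (m - 1) ≤ ((gSets G m N).card : ℝ) := by
  refine ⟨1 / (2 ^ k * k.factorial), by positivity, 2 * k + 1, fun N hN => ?_⟩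
  have h1 := counting_gen hk N
  have hNpos : (0 : ℝ) < N := by exact_mod_cast (by omega : 0 < N)
  have h2 : ((N + 1 - k : ℕ) : ℝ) ^ k ≤ k.factorial * N.choose k := by
    have := Nat.pow_sub_le_descFactorial N k
    rw [Nat.descFactorial_eq_factorial_mul_choose] at this
    exact_mod_cast this
  have h3 : ((N : ℝ) / 2) ^ k ≤ k.factorial * N.choose k := by
    refine le_trans ?_ h2
    apply pow_le_pow_left₀ (by positivity)
    rw [div_le_iff₀ (by norm_num)]
    have : N ≤ (N + 1 - k) * 2 := by omega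
    exact_mod_cast this
  have h4 : (N.choose (k - m) : ℝ) ≤ (N : ℝ) ^ (k - m) := by
    exact_mod_cast Nat.choose_le_pow N (k - m)
  have h5 : (N.choose k : ℝ) ≤ (N * N.choose (k - m)) * (gSets G m N).card := by
    exact_mod_cast h1
  have h6 : (N.choose k : ℝ) ≤ (N * (N : ℝ) ^ (k - m)) * (gSets G m N).card := by
    refine h5.trans ?_
    gcongr
  have h7 : ((N : ℝ) / 2) ^ k ≤ k.factorial * ((N * (N : ℝ) ^ (k - m)) * (gSets G m N).card) :=
    h3.trans (by gcongr)
  have h8 : (N : ℝ) ^ k = (N : ℝ) ^ (m - 1) * (N * (N : ℝ) ^ (k - m)) := by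
    rw [← pow_succ', ← pow_add]
    congr 1
    omega
  have h9 : (0 : ℝ) < N * (N : ℝ) ^ (k - m) := by positivity
  rw [div_pow, h8] at h7
  rw [div_mul_eq_mul_div, one_mul, div_le_iff₀ (by positivity)]
  have h10 : (N : ℝ) ^ (m - 1) * (N * (N : ℝ) ^ (k - m)) ≤
      ((gSets G m N).card * (2 ^ k * k.factorial)) * (N * (N : ℝ) ^ (k - m)) := by
    rw [div_le_iff₀ (by positivity)] at h7
    calc _ ≤ _ := h7
      _ = _ := by ring
  exact le_of_mul_le_mul_right h10 h9

end Pool.Agent.H214R2.Orb
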