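import Mathlib

set_option autoImplicit false

/-! Generic bilinear maps over the field with two elements: for suitable parameters there is a
bilinear map `β : E × E → E`, `E = F₂^d`, such that for any linearly independent family
`a₁..a_t, b₁..b_t` and any surjective linear map `P : E → F₂^t` some
`P (β(a_i, b_j) - β(b_j, a_i))` does not vanish. -/

namespace Pool.Agent.H214R2.Orb

abbrev F := ZMod 2
abbrev E (d : ℕ) := Fin d → F
abbrev Bil (d : ℕ) := E d →ₗ[F] E d →ₗ[F] E d

/-- The linear map recording the alternating parts of `β` on the two families, after `P`. -/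
noncomputable def Theta {d t : ℕ} (v : Fin t ⊕ Fin t → E d) (P : E d →ₗ[F] (Fin t → F)) :
    Bil d →ₗ[F] (Fin t → Fin t → Fin t → F) where
  toFun β := fun i j => P (β (v (Sum.inl i)) (v (Sum.inr j)) - β (v (Sum.inr j)) (v (Sum.inl i)))
  map_add' x y := by
    funext i j
    simp only [LinearMap.add_apply, Pi.add_apply]
    rw [← map_add]
    congr 1
    abel
  map_smul' c x := by
    funext i j
    have h1 : ∀ a b : E d, (c • x) a b = c • (x a b) := fun a b => rfl
    simp only [h1, Pi.smul_apply, RingHom.id_apply]
    rw [← smul_sub, P.map_smul]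

theorem Theta_surjective {d t : ℕ} (v : Fin t ⊕ Fin t → E d) (hv : LinearIndependent F v)
    (P : E d →ₗ[F] (Fin t → F)) (hP : Function.Surjective P) :
    Function.Surjective (Theta v P) := by
  intro c
  obtain ⟨R, hR⟩ := LinearMap.exists_rightInverse_of_surjective P (LinearMap.range_eq_top.2 hP)
  -- dual functionals
  have hinj : Function.Injective (Fintype.linearCombination F v) :=
    linearIndependent_iff_injective_fintypeLinearCombination.1 hv
  obtain ⟨D, hD⟩ := LinearMap.exists_leftInverse_of_injective (Fintype.linearCombination F v)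
    (LinearMap.ker_eq_bot.2 hinj)
  have hDv : ∀ x, D (v x) = Pi.single x 1 := by
    intro x
    have h1 := LinearMap.congr_fun hD (Pi.single x 1)
    simpa [Fintype.linearCombination_apply_single] using h1
  let β : Bil d := LinearMap.mk₂ F
    (fun x y => ∑ i, ∑ j, (D x (Sum.inl i) * D y (Sum.inr j)) • R (c i j))
    (by intro x x' y; simp only [map_add, Pi.add_apply, add_mul, add_smul, Finset.sum_add_distrib])
    (by intro a x y; simp only [map_smul, Pi.smul_apply, smul_eq_mul, mul_assoc, mul_smul,
          Finset.smul_sum])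
    (by intro x y y'; simp only [map_add, Pi.add_apply, mul_add, add_smul, Finset.sum_add_distrib])
    (by intro a x y; simp only [map_smul, Pi.smul_apply, smul_eq_mul, Finset.smul_sum]
        refine Finset.sum_congr rfl fun i _ => Finset.sum_congr rfl fun j _ => ?_
        rw [← mul_smul]
        congr 1
        ring)
  have hβ : ∀ x y, β x y = ∑ i, ∑ j, (D x (Sum.inl i) * D y (Sum.inr j)) • R (c i j) := by
    intro x y
    simp only [β, LinearMap.mk₂_apply]
  refine ⟨β, ?_⟩
  funext i j
  show P (β (v (Sum.inl i)) (v (Sum.inr j)) - β (v (Sum.inr j)) (v (Sum.inl i))) = c i j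
  have h1 : β (v (Sum.inl i)) (v (Sum.inr j)) = R (c i j) := by
    rw [hβ, Finset.sum_eq_single i, Finset.sum_eq_single j]
    · rw [hDv, hDv]; simp
    · intro j' _ hj'
      rw [hDv, hDv]
      simp [hj']
    · simp
    · intro i' _ hi'
      refine Finset.sum_eq_zero fun j' _ => ?_
      rw [hDv, hDv]
      simp [hi']
    · simp
  have h2 : β (v (Sum.inr j)) (v (Sum.inl i)) = 0 := by
    rw [hβ]
    refine Finset.sum_eq_zero fun i' _ => Finset.sum_eq_zero fun j' _ => ?_
    rw [hDv]
    simp
  rw [h1, h2, sub_zero]
  exact LinearMap.congr_fun hR (c i j)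

theorem card_ker_mul {A B : Type} [AddCommGroup A] [AddCommGroup B] [Fintype A] [Fintype B]
    [DecidableEq B] (f : A → B) (hadd : ∀ x y, f (x + y) = f x + f y)
    (hf : Function.Surjective f) :
    (Finset.univ.filter fun a => f a = 0).card * Fintype.card B = Fintype.card A := by
  classical
  have h1 : (Finset.univ : Finset A).card = ∑ b : B, (Finset.univ.filter fun a => f a = b).card :=
    Finset.card_eq_sum_card_fiberwise (fun a _ => Finset.mem_univ _)
  have h2 : ∀ b : B, (Finset.univ.filter fun a => f a = b).card =
      (Finset.univ.filter fun a => f a = 0).card := by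
    intro b
    obtain ⟨a0, ha0⟩ := hf b
    have h0 : f 0 = 0 := by
      have := hadd 0 0
      simpa using this
    refine Finset.card_bij' (fun a _ => a - a0) (fun a _ => a + a0) ?_ ?_ ?_ ?_
    · intro a ha
      simp only [Finset.mem_filter, Finset.mem_univ, true_and] at ha ⊢
      have h3 := hadd (a - a0) a0
      rw [sub_add_cancel, ha, ha0] at h3
      simpa using h3
    · intro a ha
      simp only [Finset.mem_filter, Finset.mem_univ, true_and] at ha ⊢
      rw [hadd, ha, ha0, zero_add]
    · intro a _; simp
    · intro a _; simp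
  rw [← Finset.card_univ (α := A), h1, Finset.sum_congr rfl fun b _ => h2 b, Finset.sum_const,
    smul_eq_mul, Finset.card_univ, mul_comm]

theorem exists_generic (d t : ℕ) (hdt : 3 * d < t ^ 2) (ht : 0 < t) :
    ∃ β : Bil d, ∀ (v : Fin t ⊕ Fin t → E d), LinearIndependent F v →
      ∀ P : E d →ₗ[F] (Fin t → F), Function.Surjective P →
        ∃ i j, P (β (v (Sum.inl i)) (v (Sum.inr j)) - β (v (Sum.inr j)) (v (Sum.inl i))) ≠ 0 := by
  classical
  by_contra hcon
  push Not at hcon
  have : Finite (Bil d) := Module.finite_of_finite F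
  have : Finite (E d →ₗ[F] (Fin t → F)) := Module.finite_of_finite F
  let _ : Fintype (Bil d) := Fintype.ofFinite _
  let _ : Fintype (E d →ₗ[F] (Fin t → F)) := Fintype.ofFinite _
  let I := (Fin t ⊕ Fin t → E d) × (E d →ₗ[F] (Fin t → F))
  let good : Finset I := Finset.univ.filter fun p => LinearIndependent F p.1 ∧ Function.Surjective p.2
  have hcover : (Finset.univ : Finset (Bil d)) ⊆
      good.biUnion fun p => Finset.univ.filter fun β => Theta p.1 p.2 β = 0 := by
    intro β _
    obtain ⟨v, hv, P, hP, h⟩ := hcon β
    rw [Finset.mem_biUnion]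
    refine ⟨(v, P), by simp [good, hv, hP], ?_⟩
    rw [Finset.mem_filter]
    refine ⟨Finset.mem_univ _, ?_⟩
    funext i j
    exact h i j
  have hker : ∀ p ∈ good, (Finset.univ.filter fun β => Theta p.1 p.2 β = 0).card *
      2 ^ (t * (t * t)) = Fintype.card (Bil d) := by
    intro p hp
    simp only [good, Finset.mem_filter, Finset.mem_univ, true_and] at hp
    have hs := Theta_surjective p.1 hp.1 p.2 hp.2
    have h1 := card_ker_mul (fun β => Theta p.1 p.2 β) (fun x y => map_add _ x y) hs
    rw [← h1]
    congr 1
    simp only [Fintype.card_pi, Finset.prod_const, Finset.card_univ, Fintype.card_fin, ZMod.card,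
      ← pow_mul]
    congr 1
    ring
  have hgood : good.card ≤ 2 ^ (d * (2 * t)) * 2 ^ (d * t) := by
    refine (Finset.card_le_univ _).trans ?_
    rw [Fintype.card_prod]
    refine Nat.mul_le_mul ?_ ?_
    · simp only [Fintype.card_pi, Finset.prod_const, Finset.card_univ, Fintype.card_sum,
        Fintype.card_fin, ZMod.card, ← pow_mul]
      exact le_of_eq (by congr 1; ring)
    · rw [← Nat.card_eq_fintype_card]
      rw [Module.natCard_eq_pow_finrank (K := F) (V := E d →ₗ[F] (Fin t → F))]
      simp [Nat.card_eq_fintype_card, Module.finrank_linearMap]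
  have h1 : Fintype.card (Bil d) * 2 ^ (t * (t * t)) ≤
      (2 ^ (d * (2 * t)) * 2 ^ (d * t)) * Fintype.card (Bil d) := by
    calc Fintype.card (Bil d) * 2 ^ (t * (t * t))
        ≤ (good.biUnion fun p => Finset.univ.filter fun β => Theta p.1 p.2 β = 0).card *
            2 ^ (t * (t * t)) := by
          refine Nat.mul_le_mul_right _ ?_
          rw [← Finset.card_univ]
          exact Finset.card_le_card hcover
      _ ≤ (∑ p ∈ good, (Finset.univ.filter fun β => Theta p.1 p.2 β = 0).card) *
            2 ^ (t * (t * t)) := Nat.mul_le_mul_right _ Finset.card_biUnion_le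
      _ = ∑ p ∈ good, Fintype.card (Bil d) := by
          rw [Finset.sum_mul]
          exact Finset.sum_congr rfl hker
      _ = good.card * Fintype.card (Bil d) := by rw [Finset.sum_const, smul_eq_mul]
      _ ≤ _ := Nat.mul_le_mul_right _ hgood
  have hpos : 0 < Fintype.card (Bil d) := Fintype.card_pos
  have h2 : 2 ^ (t * (t * t)) ≤ 2 ^ (d * (2 * t)) * 2 ^ (d * t) := by
    rw [mul_comm] at h1
    exact Nat.le_of_mul_le_mul_right h1 hpos
  rw [← pow_add] at h2
  have h3 := (Nat.pow_le_pow_iff_right (by norm_num : 1 < 2)).1 h2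
  nlinarith

end Pool.Agent.H214R2.Orb
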