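import Mathlib
import Pool.Agent.H214R2.OrbGeneric

set_option autoImplicit false

namespace Pool.Agent.H214R2.Orb

open Module

/-- The central extension of `E` by `E` with cocycle `β`. -/
structure Ext {d : ℕ} (β : Bil d) where
  fst : E d
  snd : E d

namespace Ext

variable {d : ℕ} {β : Bil d}

@[ext] theorem ext' {x y : Ext β} (h1 : x.fst = y.fst) (h2 : x.snd = y.snd) : x = y := by
  cases x; cases y; simp_all

instance : Mul (Ext β) := ⟨fun x y => ⟨x.fst + y.fst, x.snd + y.snd + β x.fst y.fst⟩⟩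
instance : One (Ext β) := ⟨⟨0, 0⟩⟩
instance : Inv (Ext β) := ⟨fun x => ⟨-x.fst, -x.snd + β x.fst x.fst⟩⟩

@[simp] theorem fst_mul (x y : Ext β) : (x * y).fst = x.fst + y.fst := rfl
@[simp] theorem snd_mul (x y : Ext β) : (x * y).snd = x.snd + y.snd + β x.fst y.fst := rfl
@[simp] theorem fst_one : (1 : Ext β).fst = 0 := rfl
@[simp] theorem snd_one : (1 : Ext β).snd = 0 := rfl
@[simp] theorem fst_inv (x : Ext β) : (x⁻¹).fst = -x.fst := rfl
@[simp] theorem snd_inv (x : Ext β) : (x⁻¹).snd = -x.snd + β x.fst x.fst := rfl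

instance : Group (Ext β) where
  mul_assoc x y z := by
    ext1
    · simp [add_assoc]
    · simp only [snd_mul, fst_mul, map_add, LinearMap.add_apply]
      abel
  one_mul x := by ext1 <;> simp
  mul_one x := by ext1 <;> simp
  inv_mul_cancel x := by
    ext1
    · simp
    · simp only [snd_mul, fst_inv, snd_inv, snd_one, map_neg, LinearMap.neg_apply]
      abel

def equivProd : Ext β ≃ E d × E d where
  toFun x := (x.fst, x.snd)
  invFun p := ⟨p.1, p.2⟩
  left_inv _ := rfl
  right_inv _ := rfl

instance : Finite (Ext β) := Finite.of_equiv _ equivProd.symm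

theorem card_ext : Nat.card (Ext β) = 2 ^ (2 * d) := by
  rw [Nat.card_congr equivProd, Nat.card_prod]
  simp only [Nat.card_eq_fintype_card, Fintype.card_pi, Finset.prod_const, Finset.card_univ,
    Fintype.card_fin, ZMod.card]
  rw [← pow_add]
  congr 1
  ring

end Ext

section Main

variable {d : ℕ} {β : Bil d} {V : Type} (φ : Ext β →* Equiv.Perm V)

/-- The image in `E` of the stabiliser of `v`. -/
def Hbar (v : V) : Submodule F (E d) where
  carrier := {a | ∃ g : Ext β, φ g v = v ∧ g.fst = a}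
  add_mem' := by
    rintro a b ⟨g, hg, rfl⟩ ⟨h, hh, rfl⟩
    exact ⟨g * h, by rw [map_mul, Equiv.Perm.mul_apply, hh, hg], rfl⟩
  zero_mem' := ⟨1, by simp, rfl⟩
  smul_mem' := by
    rintro c a ⟨g, hg, rfl⟩
    have hc : c = 0 ∨ c = 1 := by
      revert c; decide
    rcases hc with rfl | rfl
    · exact ⟨1, by simp, by simp⟩
    · exact ⟨g, hg, by simp⟩

/-- The central part of the stabiliser of `v`. -/
def Wc (v : V) : Submodule F (E d) where
  carrier := {z | φ ⟨0, z⟩ v = v}
  add_mem' := by
    intro a b ha hb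
    have h : (⟨0, a + b⟩ : Ext β) = ⟨0, a⟩ * ⟨0, b⟩ := by
      ext1 <;> simp
    show φ ⟨0, a + b⟩ v = v
    rw [h, map_mul, Equiv.Perm.mul_apply, hb, ha]
  zero_mem' := by
    have h : (⟨0, 0⟩ : Ext β) = 1 := rfl
    show φ ⟨0, 0⟩ v = v
    rw [h]
    simp
  smul_mem' := by
    intro c a ha
    have hc : c = 0 ∨ c = 1 := by
      revert c; decide
    rcases hc with rfl | rfl
    · have h : (⟨0, (0 : F) • a⟩ : Ext β) = 1 := by ext1 <;> simp
      show φ ⟨0, (0 : F) • a⟩ v = v
      rw [h]; simp
    · have h : (⟨0, (1 : F) • a⟩ : Ext β) = ⟨0, a⟩ := by ext1 <;> simp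
      show φ ⟨0, (1 : F) • a⟩ v = v
      rw [h]; exact ha

theorem comm_mem {v : V} {a b : E d} (ha : a ∈ Hbar φ v) (hb : b ∈ Hbar φ v) :
    β a b - β b a ∈ Wc φ v := by
  obtain ⟨g, hg, rfl⟩ := ha
  obtain ⟨h, hh, rfl⟩ := hb
  show φ ⟨0, β g.fst h.fst - β h.fst g.fst⟩ v = v
  have e : (⟨0, β g.fst h.fst - β h.fst g.fst⟩ : Ext β) * (h * g) = g * h := by
    ext1
    · simp [add_comm]
    · simp only [Ext.snd_mul, map_zero, LinearMap.zero_apply]
      abel
  have e2 : φ (h * g) v = v := by
    rw [map_mul, Equiv.Perm.mul_apply, hg, hh]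
  have e3 : φ (g * h) v = v := by
    rw [map_mul, Equiv.Perm.mul_apply, hh, hg]
  rw [← e, map_mul, Equiv.Perm.mul_apply, e2] at e3
  exact e3

theorem codim_lt {t : ℕ}
    (hβ : ∀ (v : Fin t ⊕ Fin t → E d), LinearIndependent F v →
      ∀ P : E d →ₗ[F] (Fin t → F), Function.Surjective P →
        ∃ i j, P (β (v (Sum.inl i)) (v (Sum.inr j)) - β (v (Sum.inr j)) (v (Sum.inl i))) ≠ 0)
    (v : V) (hv : 2 * t ≤ finrank F (Hbar φ v)) : finrank F (E d ⧸ Wc φ v) < t := by
  by_contra hcon
  push Not at hcon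
  obtain ⟨a, ha⟩ := exists_linearIndependent_of_le_finrank (R := F) (M := Hbar φ v)
    (n := t + t) (by omega)
  obtain ⟨c, hc⟩ := exists_linearIndependent_of_le_finrank (R := F) (M := E d ⧸ Wc φ v)
    (n := t) hcon
  have hinj : Function.Injective (Fintype.linearCombination F c) :=
    linearIndependent_iff_injective_fintypeLinearCombination.1 hc
  obtain ⟨g, hg⟩ := LinearMap.exists_leftInverse_of_injective (Fintype.linearCombination F c)
    (LinearMap.ker_eq_bot.2 hinj)
  have hgs : Function.Surjective g := by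
    intro y
    exact ⟨_, LinearMap.congr_fun hg y⟩
  let w : Fin t ⊕ Fin t → E d := fun x => (a (finSumFinEquiv x) : E d)
  have hw : LinearIndependent F w := by
    have h1 := ha.map' (Hbar φ v).subtype (Submodule.ker_subtype _)
    exact h1.comp _ finSumFinEquiv.injective
  obtain ⟨i, j, hij⟩ := hβ w hw (g.comp (Wc φ v).mkQ)
    (hgs.comp (Submodule.mkQ_surjective _))
  apply hij
  have hm : β (w (Sum.inl i)) (w (Sum.inr j)) - β (w (Sum.inr j)) (w (Sum.inl i)) ∈ Wc φ v :=
    comm_mem φ (Subtype.property _) (Subtype.property _)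
  rw [LinearMap.comp_apply, Submodule.mkQ_apply, (Submodule.Quotient.mk_eq_zero _).2 hm, map_zero]

theorem finrank_finset_sup_le {ι : Type} (s : Finset ι) (f : ι → Submodule F (E d)) :
    finrank F (s.sup f : Submodule F (E d)) ≤ ∑ i ∈ s, finrank F (f i) := by
  classical
  induction s using Finset.induction_on with
  | empty => simp
  | insert a s ha ih =>
    rw [Finset.sup_insert, Finset.sum_insert ha]
    exact (Submodule.finrank_add_le_finrank_add_finrank _ _).trans (Nat.add_le_add_left ih _)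

theorem main_aux {t N k : ℕ}
    (hβ : ∀ (v : Fin t ⊕ Fin t → E d), LinearIndependent F v →
      ∀ P : E d →ₗ[F] (Fin t → F), Function.Surjective P →
        ∃ i j, P (β (v (Sum.inl i)) (v (Sum.inr j)) - β (v (Sum.inr j)) (v (Sum.inl i))) ≠ 0)
    (h1 : N * t < d) (h2 : 2 * d < 2 ^ t) (h3 : N * (2 * t + k) + t ≤ d)
    [Finite V] (X : Digraph V)
    (hout : ∀ x, Set.ncard {y | X.Adj x y} ≤ k)
    (hφ : Function.Injective φ)
    (haut : ∀ σ : Equiv.Perm V, σ ∈ φ.range ↔ ∀ x y, (X.Adj (σ x) (σ y) ↔ X.Adj x y)) :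
    ∃ f : Fin (N + 1) → V, ∀ (i j : Fin (N + 1)) (g : Ext β), φ g (f i) = f j → i = j := by
  classical
  by_contra hcon
  let S : Setoid V := ⟨fun v w => ∃ g : Ext β, φ g v = w, ⟨fun v => ⟨1, by simp⟩, by
      rintro v w ⟨g, hg⟩
      refine ⟨g⁻¹, ?_⟩
      rw [← hg, ← Equiv.Perm.mul_apply, ← map_mul, inv_mul_cancel, map_one,
        Equiv.Perm.one_apply], by
      rintro v w x ⟨g, hg⟩ ⟨h, hh⟩
      exact ⟨h * g, by rw [map_mul, Equiv.Perm.mul_apply, hg, hh]⟩⟩⟩
  let Q := Quotient S
  have hQfin : Finite Q := Quotient.finite S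
  let _ : Fintype Q := Fintype.ofFinite Q
  let rep : Q → V := Quotient.out
  have hrep : ∀ v : V, ∃ g : Ext β, φ g (rep (Quotient.mk S v)) = v := fun v =>
    Quotient.exact (Quotient.out_eq (Quotient.mk S v))
  choose γ hγ using hrep
  have hcard : Fintype.card Q ≤ N := by
    by_contra hQ
    push Not at hQ
    apply hcon
    have he : Nonempty (Fin (N + 1) ↪ Q) := by
      apply Function.Embedding.nonempty_of_card_le
      simpa using hQ
    obtain ⟨e⟩ := he
    refine ⟨fun i => rep (e i), fun i j g hg => ?_⟩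
    apply e.injective
    have h4 : Quotient.mk S (rep (e i)) = Quotient.mk S (rep (e j)) := Quotient.sound ⟨g, hg⟩
    have h5 : ∀ q : Q, Quotient.mk S (rep q) = q := fun q => Quotient.out_eq q
    rw [h5, h5] at h4
    exact h4
  -- choice of the central involution
  obtain ⟨u, hu0, hu⟩ : ∃ u : E d, u ≠ 0 ∧
      ∀ q : Q, 2 * t ≤ finrank F (Hbar φ (rep q)) → u ∈ Wc φ (rep q) := by
    let Q' := {q : Q // 2 * t ≤ finrank F (Hbar φ (rep q))}
    let Ψ : E d →ₗ[F] (∀ q : Q', E d ⧸ Wc φ (rep q.1)) :=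
      LinearMap.pi (fun q => (Wc φ (rep q.1)).mkQ)
    have hfr : finrank F (∀ q : Q', E d ⧸ Wc φ (rep q.1)) < finrank F (E d) := by
      rw [Module.finrank_pi_fintype]
      have h4 : ∑ q : Q', finrank F (E d ⧸ Wc φ (rep q.1)) ≤ ∑ q : Q', t :=
        Finset.sum_le_sum fun q _ => (codim_lt φ hβ (rep q.1) q.2).le
      have h5 : Fintype.card Q' ≤ Fintype.card Q := Fintype.card_subtype_le _
      have h6 : ∑ q : Q', t ≤ N * t := by
        rw [Finset.sum_const, smul_eq_mul, Finset.card_univ]
        exact Nat.mul_le_mul_right _ (h5.trans hcard)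
      have h7 : finrank F (E d) = d := by simp
      omega
    have hker := LinearMap.ker_ne_bot_of_finrank_lt (f := Ψ) hfr
    obtain ⟨u, hu, hu0⟩ := (Submodule.ne_bot_iff _).1 hker
    refine ⟨u, hu0, fun q hq => ?_⟩
    have h4 := congr_fun (LinearMap.mem_ker.1 hu) ⟨q, hq⟩
    exact (Submodule.Quotient.mk_eq_zero _).1 h4
  let U : Ext β := ⟨0, u⟩
  have hUc : ∀ g : Ext β, U * g = g * U := by
    intro g
    ext1
    · simp [U]
    · simp only [Ext.snd_mul, U, map_zero, LinearMap.zero_apply]
      abel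
  have hUU : U * U = 1 := by
    ext1
    · simp [U]
    · funext i
      simp only [Ext.snd_mul, U, map_zero, Pi.add_apply, Pi.zero_apply, add_zero, Ext.snd_one]
      have : ∀ c : F, c + c = 0 := by decide
      exact this _
  have hU1 : U ≠ 1 := by
    intro h
    exact hu0 (congrArg Ext.snd h)
  have hUcomm : ∀ (g : Ext β) (v : V), φ U (φ g v) = φ g (φ U v) := by
    intro g v
    rw [← Equiv.Perm.mul_apply, ← Equiv.Perm.mul_apply, ← map_mul, ← map_mul, hUc]
  have hUUv : ∀ v, φ U (φ U v) = v := by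
    intro v
    rw [← Equiv.Perm.mul_apply, ← map_mul, hUU, map_one, Equiv.Perm.one_apply]
  have hact : ∀ (g : Ext β) (v : V), φ U (φ g v) ≠ φ g v ↔ φ U v ≠ v := by
    intro g v
    rw [hUcomm, not_iff_not]
    exact (φ g).injective.eq_iff
  obtain ⟨v0, hv0⟩ : ∃ v0, φ U v0 ≠ v0 := by
    by_contra h
    push Not at h
    apply hU1
    apply hφ
    rw [map_one]
    exact Equiv.ext h
  have hadj : ∀ (g : Ext β) (x y : V), X.Adj (φ g x) (φ g y) ↔ X.Adj x y := fun g =>
    (haut (φ g)).1 ⟨g, rfl⟩
  -- the submodule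
  let Mq : Q → Submodule F (E d) := fun q =>
    (if φ U (rep q) ≠ rep q then Hbar φ (rep q) else ⊥) ⊔
      Submodule.span F ((fun w => (γ w).fst) '' {w | X.Adj (rep q) w})
  let M : Submodule F (E d) := Finset.univ.sup Mq
  have hMq : ∀ q, finrank F (Mq q) ≤ 2 * t + k := by
    intro q
    refine (Submodule.finrank_add_le_finrank_add_finrank _ _).trans (Nat.add_le_add ?_ ?_)
    · by_cases h : φ U (rep q) ≠ rep q
      · rw [if_pos h]
        by_contra h4
        push Not at h4
        exact h (hu q h4.le)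
      · rw [if_neg h]
        simp
    · have hfin : Set.Finite ((fun w => (γ w).fst) '' {w | X.Adj (rep q) w}) := Set.toFinite _
      let _ : Fintype ((fun w => (γ w).fst) '' {w | X.Adj (rep q) w}) := hfin.fintype
      refine (finrank_span_le_card _).trans ?_
      rw [← Set.ncard_eq_toFinset_card']
      exact (Set.ncard_image_le (Set.toFinite _)).trans (hout _)
  have hM : finrank F M ≤ N * (2 * t + k) := by
    refine (finrank_finset_sup_le _ _).trans ?_
    refine (Finset.sum_le_sum fun q _ => hMq q).trans ?_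
    rw [Finset.sum_const, smul_eq_mul, Finset.card_univ]
    exact Nat.mul_le_mul_right _ hcard
  have hMle : ∀ q, Mq q ≤ M := fun q => Finset.le_sup (f := Mq) (Finset.mem_univ q)
  let ψ : V → E d ⧸ M := fun v => M.mkQ (γ v).fst
  have hψ : ∀ (g : Ext β) (v : V), φ U v ≠ v → ψ (φ g v) = M.mkQ g.fst + ψ v := by
    intro g v hv
    have hcl' : Quotient.mk S v = Quotient.mk S (φ g v) := Quotient.sound ⟨g, rfl⟩
    have hcl : Quotient.mk S (φ g v) = Quotient.mk S v := hcl'.symm
    have hr : φ ((γ (φ g v))⁻¹ * g * γ v) (rep (Quotient.mk S v)) = rep (Quotient.mk S v) := by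
      rw [map_mul, map_mul, Equiv.Perm.mul_apply, Equiv.Perm.mul_apply, hγ, map_inv,
        Equiv.Perm.inv_eq_iff_eq]
      have := hγ (φ g v)
      rw [hcl] at this
      exact this.symm
    have hactr : φ U (rep (Quotient.mk S v)) ≠ rep (Quotient.mk S v) := by
      rw [← hact (γ v), hγ]
      exact hv
    have hmem : ((γ (φ g v))⁻¹ * g * γ v).fst ∈ M := by
      refine hMle (Quotient.mk S v) ?_
      refine Submodule.mem_sup_left ?_
      rw [if_pos hactr]
      exact ⟨_, hr, rfl⟩
    have h4 : M.mkQ (((γ (φ g v))⁻¹ * g * γ v).fst) = 0 := (Submodule.Quotient.mk_eq_zero _).2 hmem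
    simp only [Ext.fst_mul, Ext.fst_inv, map_add, map_neg] at h4
    show M.mkQ (γ (φ g v)).fst = M.mkQ g.fst + M.mkQ (γ v).fst
    rw [add_assoc, neg_add_eq_zero] at h4
    exact h4
  have hψU : ∀ v, ψ (φ U v) = ψ v := by
    intro v
    by_cases hv : φ U v = v
    · rw [hv]
    · rw [hψ U v hv]
      simp [U]
  have hψadj : ∀ v w, φ U v ≠ v → φ U w ≠ w → X.Adj v w → ψ v = ψ w := by
    intro v w hv hw hvw
    set r := rep (Quotient.mk S v) with hr
    have h4 : w = φ (γ v) (φ (γ v)⁻¹ w) := by
      rw [← Equiv.Perm.mul_apply, ← map_mul, mul_inv_cancel, map_one, Equiv.Perm.one_apply]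
    set w' := φ (γ v)⁻¹ w with hw'
    have h5 : X.Adj r w' := by
      rw [← hadj (γ v), ← h4, hr, hγ]
      exact hvw
    have h6 : φ U w' ≠ w' := by
      rw [← hact (γ v), ← h4]
      exact hw
    have h7 : ψ w' = 0 := by
      refine (Submodule.Quotient.mk_eq_zero _).2 ?_
      refine hMle (Quotient.mk S v) ?_
      refine Submodule.mem_sup_right (Submodule.subset_span ⟨w', h5, rfl⟩)
    rw [h4, hψ (γ v) w' h6, h7, add_zero]
  -- the twisted automorphisms
  let σf : Set (E d ⧸ M) → V → V := fun T v => if ψ v ∈ T then φ U v else v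
  have hσinv : ∀ T, Function.Involutive (σf T) := by
    intro T v
    simp only [σf]
    by_cases hv : ψ v ∈ T
    · rw [if_pos hv, if_pos (by rw [hψU]; exact hv), hUUv]
    · rw [if_neg hv, if_neg hv]
  let σ : Set (E d ⧸ M) → Equiv.Perm V := fun T => (hσinv T).toPerm
  have hσ : ∀ T, σ T ∈ φ.range := by
    intro T
    rw [haut]
    intro x y
    show X.Adj (σf T x) (σf T y) ↔ X.Adj x y
    simp only [σf]
    by_cases hx : φ U x = x
    · have e1 : (if ψ x ∈ T then φ U x else x) = x := by rw [hx, ite_self]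
      rw [e1]
      by_cases hy : ψ y ∈ T
      · rw [if_pos hy]
        conv_lhs => rw [← hx]
        exact hadj U x y
      · rw [if_neg hy]
    · by_cases hy : φ U y = y
      · have e1 : (if ψ y ∈ T then φ U y else y) = y := by rw [hy, ite_self]
        rw [e1]
        by_cases hx' : ψ x ∈ T
        · rw [if_pos hx']
          conv_lhs => rw [← hy]
          exact hadj U x y
        · rw [if_neg hx']
      · by_cases hx' : ψ x ∈ T <;> by_cases hy' : ψ y ∈ T
        · rw [if_pos hx', if_pos hy']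
          exact hadj U x y
        · rw [if_pos hx', if_neg hy']
          constructor
          · intro h
            exfalso
            have := hψadj _ _ (by rw [hUUv]; exact fun h => hx h.symm) hy h
            rw [hψU] at this
            exact hy' (this ▸ hx')
          · intro h
            exfalso
            exact hy' (hψadj _ _ hx hy h ▸ hx')
        · rw [if_neg hx', if_pos hy']
          constructor
          · intro h
            exfalso
            have := hψadj _ _ hx (by rw [hUUv]; exact fun h => hy h.symm) h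
            rw [hψU] at this
            exact hx' (this ▸ hy')
          · intro h
            exfalso
            exact hx' (hψadj _ _ hx hy h ▸ hy')
        · rw [if_neg hx', if_neg hy']
  have hσinj : Function.Injective σ := by
    intro T T' hTT
    ext e
    obtain ⟨a, ha⟩ := Submodule.mkQ_surjective M (e - ψ v0)
    let g : Ext β := ⟨a, 0⟩
    have hv : ψ (φ g v0) = e := by
      rw [hψ g v0 hv0]
      show M.mkQ a + ψ v0 = e
      rw [ha, sub_add_cancel]
    have hvact : φ U (φ g v0) ≠ φ g v0 := (hact g v0).2 hv0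
    have h4 : σf T (φ g v0) = σf T' (φ g v0) := Equiv.congr_fun hTT _
    simp only [σf, hv] at h4
    by_cases h5 : e ∈ T <;> by_cases h6 : e ∈ T'
    · simp [h5, h6]
    · rw [if_pos h5, if_neg h6] at h4
      exact absurd h4 hvact
    · rw [if_neg h5, if_pos h6] at h4
      exact absurd h4.symm hvact
    · simp [h5, h6]
  -- counting
  have hle : Nat.card (Set (E d ⧸ M)) ≤ Nat.card (Ext β) := by
    choose τ hτ using hσ
    refine Nat.card_le_card_of_injective τ ?_
    intro T T' h
    apply hσinj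
    rw [← hτ T, ← hτ T', h]
  have hfinq : Finite (E d ⧸ M) := Module.finite_of_finite F
  let _ : Fintype (E d ⧸ M) := Fintype.ofFinite _
  have hq : Nat.card (E d ⧸ M) = 2 ^ finrank F (E d ⧸ M) := by
    rw [Module.natCard_eq_pow_finrank (K := F), Nat.card_zmod]
  rw [Ext.card_ext, Nat.card_eq_fintype_card, Fintype.card_set, ← Nat.card_eq_fintype_card,
    hq] at hle
  have hle2 := (Nat.pow_le_pow_iff_right (by norm_num : 1 < 2)).1 hle
  have hfrq := Submodule.finrank_quotient_add_finrank M
  have hd : finrank F (E d) = d := by simp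
  have h8 : t ≤ finrank F (E d ⧸ M) := by omega
  have h9 : 2 ^ t ≤ 2 ^ finrank F (E d ⧸ M) := Nat.pow_le_pow_right (by norm_num) h8
  omega

end Main

end Pool.Agent.H214R2.Orb
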